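import Mathlib

/-!
Project BG (MP_8410f8_pr): the definitions used in the final statements.
-/

open MeasureTheory Set
open scoped ENNReal

namespace Pool.Agent.Helper97.BG

/-- Ambient Euclidean space. -/
abbrev V (d : ℕ) := EuclideanSpace ℝ (Fin (d + 1))

/-- The sphere `S^d`. -/
abbrev Sph (d : ℕ) := Metric.sphere (0 : V d) 1

/-- The uniform probability measure on `S^d` (normalised surface measure). -/
noncomputable def sig (d : ℕ) : Measure (Sph d) :=
  ((volume : Measure (V d)).toSphere univ)⁻¹ • (volume : Measure (V d)).toSphere

/-- The random Borsuk graph on the points `X 0, ..., X (n-1)`: two different indices are adjacent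
when the angle between the points is larger than `π - α`. -/
def borsuk {d n : ℕ} (X : Fin n → Sph d) (α : ℝ) : SimpleGraph (Fin n) where
  Adj i j := i ≠ j ∧ Real.pi - α < InnerProductGeometry.angle (X i : V d) (X j)
  symm := ⟨fun i j h => ⟨h.1.symm, by rw [InnerProductGeometry.angle_comm]; exact h.2⟩⟩
  loopless := ⟨fun i h => h.1 rfl⟩

/-- The probability that the chromatic number of `G_d(n, α)` is larger than `k`
(`n` independent uniform points on `S^d`). -/
noncomputable def prob (d n : ℕ) (α : ℝ) (k : ℕ) : ℝ≥0∞ :=
  (Measure.pi fun _ : Fin n => sig d) {X | (k : ℕ∞) < (borsuk X α).chromaticNumber}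

end Pool.Agent.Helper97.BG
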