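import Mathlib
import Pool.Agent.Helper97.BG.Stmt

/-!
Project BG (MP_8410f8_pr): definitions.

`Poi mu f` is the expectation of `f (set of points)` for a Poisson process with finite intensity
measure `mu`, written as an explicit series. Everything takes values in `ℝ≥0∞`.
-/

open MeasureTheory Set
open scoped ENNReal

namespace Pool.Agent.Helper97.BG

section Abstract

variable {S : Type*} [MeasurableSpace S]

open Classical in
/-- The indicator of a proposition, with values in `ℝ≥0∞`. -/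
noncomputable def ind (p : Prop) : ℝ≥0∞ := if p then 1 else 0

/-- Integral of `f (range X)` over `n`-tuples `X`. -/
noncomputable def tup (mu : Measure S) (n : ℕ) (f : Set S → ℝ≥0∞) : ℝ≥0∞ :=
  ∫⁻ X : Fin n → S, f (Set.range X) ∂(Measure.pi fun _ => mu)

/-- `e^{-mu(S)}` as an element of `ℝ≥0∞`. -/
noncomputable def em (mu : Measure S) : ℝ≥0∞ := ENNReal.ofReal (Real.exp (-(mu univ).toReal))

/-- Poisson expectation of `f`. -/
noncomputable def Poi (mu : Measure S) (f : Set S → ℝ≥0∞) : ℝ≥0∞ :=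
  em mu * ∑' n : ℕ, ((n.factorial : ℝ≥0∞))⁻¹ * tup mu n f

/-- Truncated Poisson expectation: at most `k` points. -/
noncomputable def PoiT (mu : Measure S) (k : ℕ) (f : Set S → ℝ≥0∞) : ℝ≥0∞ :=
  em mu * ∑ n ∈ Finset.range (k + 1), ((n.factorial : ℝ≥0∞))⁻¹ * tup mu n f

/-- Measurability of a function of finite configurations. -/
def MS (f : Set S → ℝ≥0∞) : Prop := ∀ n, Measurable fun X : Fin n → S => f (Set.range X)

/-- Joint measurability with a parameter. -/
def MS1 {T : Type*} [MeasurableSpace T] (f : T → Set S → ℝ≥0∞) : Prop :=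
  ∀ n, Measurable fun p : T × (Fin n → S) => f p.1 (Set.range p.2)

/-- `t` is pivotal for the event `E` at the configuration `A`. -/
noncomputable def pv (E : Set S → Prop) (t : S) (A : Set S) : ℝ≥0∞ :=
  ind (¬ E A ∧ E (insert t A))

/-- The tail `∑_{n > k} m^n / n!`. -/
noncomputable def tail (m : ℝ≥0∞) (k : ℕ) : ℝ≥0∞ :=
  ∑' n : ℕ, m ^ (n + k + 1) * (((n + k + 1).factorial : ℝ≥0∞))⁻¹

end Abstract

variable {d : ℕ}

/-- `c` is a proper 2-colouring of `A`; `u`, `v` are adjacent when `‖u + v‖ < a`. -/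
def Prop2 (a : ℝ) (c : Sph d → Bool) (A : Set (Sph d)) : Prop :=
  ∀ u ∈ A, ∀ v ∈ A, ‖(u : V d) + v‖ < a → c u ≠ c v

/-- `A` is 2-colourable. -/
def Col2 (a : ℝ) (A : Set (Sph d)) : Prop := ∃ c : Sph d → Bool, Prop2 a c A

/-- `A` is `k`-colourable. -/
def Col (a : ℝ) (k : ℕ) (A : Set (Sph d)) : Prop :=
  ∃ c : Sph d → Fin k, ∀ u ∈ A, ∀ v ∈ A, ‖(u : V d) + v‖ < a → c u ≠ c v

/-- `A` is not 2-colourable. -/
def Bad (a : ℝ) (A : Set (Sph d)) : Prop := ¬ Col2 a A

/-- Distance of `v` to the pair `{x, -x}`. -/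
noncomputable def nrm (x v : Sph d) : ℝ := min ‖(v : V d) - x‖ ‖(v : V d) + x‖

/-- The double ball around `x` and `-x`. -/
def Dg (x : Sph d) (r : ℝ) : Set (Sph d) := {v | nrm x v < r}

open Classical in
/-- The side of `v` with respect to `x`: `true` if `v` is closer to `x` than to `-x`. -/
noncomputable def tau (x v : Sph d) : Bool := decide (‖(v : V d) - x‖ < ‖(v : V d) + x‖)

/-- The part of `A` outside `Dg x r` has a proper 2-colouring equal to `tau x` at distance `< s`. -/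
def Ext (a : ℝ) (x : Sph d) (r s : ℝ) (A : Set (Sph d)) : Prop :=
  ∃ c : Sph d → Bool, Prop2 a c (A \ Dg x r) ∧ ∀ v ∈ A \ Dg x r, nrm x v < s → c v = tau x v

/-- The event `F_r`. -/
def FF (a : ℝ) (x : Sph d) (r : ℝ) (A : Set (Sph d)) : Prop :=
  Col2 a (A \ Dg x r) ∧ ¬ Ext a x r (r + 3 / 4 * a) A

/-- The truncated expectation `U(x)`: at most `k` points inside `Dg x (3a)`. -/
noncomputable def UU (a : ℝ) (mu : Measure (Sph d)) (k : ℕ) (x : Sph d) : ℝ≥0∞ :=
  Poi (mu.restrict (Dg x (3 * a))ᶜ) fun A =>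
    PoiT (mu.restrict (Dg x (3 * a))) k fun B => pv (Bad a) x (A ∪ B)

/-- The deletable region `W(m)`. -/
def Wset (a : ℝ) (m : Set (Sph d)) : Set (Sph d) :=
  {y | ∃ h ∈ m, (∀ h' ∈ m, 5 / 4 * a ≤ ‖(h : V d) + h'‖) ∧ ‖(y : V d) - h‖ < a / 8}

/-- Intensity `al` outside `W` and `be` on `W`. -/
noncomputable def muW (W : Set (Sph d)) (al be : ℝ≥0∞) : Measure (Sph d) :=
  al • (sig d).restrict Wᶜ + be • (sig d).restrict W

end Pool.Agent.Helper97.BG
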