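import Mathlib
import Pool.Agent.Helper97.BG.Stmt

/-!
Project BG (MP_8410f8_pr): the two halves of the notion of a sharp threshold at `c n^{-1/d}`.
-/

open Filter Topology
open scoped ENNReal

namespace Pool.Agent.Helper97.BG

/-- `P(χ(G_d(n, α n)) > k) → 0` for every `ε > 0` and every positive sequence `α` with
`α n < (1 - ε) c n^{-1/d}` for all `n ≥ 1`. -/
def LowerAt (d k : ℕ) (c : ℝ) : Prop :=
  ∀ ε : ℝ, 0 < ε → ∀ α : ℕ → ℝ,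
    (∀ n : ℕ, 1 ≤ n → 0 < α n ∧ α n < (1 - ε) * c * (n : ℝ) ^ (-(1 : ℝ) / d)) →
    Tendsto (fun n => prob d n (α n) k) atTop (𝓝 0)

/-- `P(χ(G_d(n, α n)) > k) → 1` for every `ε > 0` and every sequence `α` with
`α n > (1 + ε) c n^{-1/d}` for all `n ≥ 1`. -/
def UpperAt (d k : ℕ) (c : ℝ) : Prop :=
  ∀ ε : ℝ, 0 < ε → ∀ α : ℕ → ℝ,
    (∀ n : ℕ, 1 ≤ n → (1 + ε) * c * (n : ℝ) ^ (-(1 : ℝ) / d) < α n) →
    Tendsto (fun n => prob d n (α n) k) atTop (𝓝 1)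

end Pool.Agent.Helper97.BG
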