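import Pool.Agent.Helper97.BG.Stmt2
import Pool.Agent.Helper97.BG.St.T1
import Pool.Agent.Helper97.BG.St.T2
import Pool.Agent.Helper97.BG.St.T4

/-!
Project BG (MP_8410f8_pr): from the master inequality to thresholds, for all `k`.
-/

open MeasureTheory Set Filter Topology
open scoped ENNReal

namespace Pool.Agent.Helper97.BG

/-- The master inequality (helper94), as a proposition. -/
def MasterIneq (d : ℕ) : Prop := ∀ c : ℝ, 0 < c → ∃ kap : ℝ, 0 < kap ∧ kap < 1 ∧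
  ∀ (a L : ℝ) (k : ℕ), 0 < a → a < 1 / 2 → 0 ≤ L → L * a ^ d ≤ c →
    Poi (ENNReal.ofReal L • sig d) (fun A => ind (¬ Col a (k + 1) A)) ≤
      Poi (ENNReal.ofReal ((1 - kap) * L) • sig d) (fun A => ind (¬ Col a k A))

theorem f2_rpow_inv {d : ℕ} (hd : 1 ≤ d) {x : ℝ} (hx : 0 < x) :
    (x ^ (-(1 : ℝ) / d)) ^ d = x⁻¹ := by
  rw [← Real.rpow_natCast, ← Real.rpow_mul hx.le]
  have : -(1 : ℝ) / d * (d : ℝ) = -1 := by
    have : (d : ℝ) ≠ 0 := by positivity
    field_simp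
  rw [this, Real.rpow_neg_one]

theorem f2_tendsto_rpow {d : ℕ} (hd : 1 ≤ d) (c : ℝ) :
    Tendsto (fun n : ℕ => c * (n : ℝ) ^ (-(1 : ℝ) / d)) atTop (𝓝 0) := by
  have h1 : Tendsto (fun x : ℝ => x ^ (-(1 / (d : ℝ)))) atTop (𝓝 0) :=
    tendsto_rpow_neg_atTop (by positivity)
  have h2 := (h1.comp tendsto_natCast_atTop_atTop).const_mul c
  rw [mul_zero] at h2
  refine h2.congr fun n => ?_
  simp only [Function.comp]
  congr 2
  ring

theorem f2_tup_le_one (d n : ℕ) {f : Set (Sph d) → ℝ≥0∞} (h : ∀ A, f A ≤ 1) :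
    tup (sig d) n f ≤ 1 := by
  have := tup_le (sig d) n 1 h
  simpa using this

theorem f2_ind_le_one (p : Prop) : ind p ≤ 1 := by
  unfold ind; split_ifs <;> simp

/-- The key inequality for one `n`. -/
theorem f2_key {d n n' k : ℕ} {kap a L : ℝ} (hk0 : 0 < kap) (hk1 : kap < 1)
    (hL : L = (1 + kap / 4) * n) (hn : 1 ≤ n) (hn' : (1 - kap / 4) * n ≤ n')
    (hmain : Poi (ENNReal.ofReal L • sig d) (fun A => ind (¬ Col a (k + 1) A)) ≤
        Poi (ENNReal.ofReal ((1 - kap) * L) • sig d) (fun A => ind (¬ Col a k A))) :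
    tup (sig d) n (fun A => ind (¬ Col a (k + 1) A)) ≤
      tup (sig d) n' (fun A => ind (¬ Col a k A)) + ENNReal.ofReal (36 / (kap ^ 2 * n)) := by
  have hn0 : (1 : ℝ) ≤ n := by exact_mod_cast hn
  have hL0 : 0 ≤ L := by rw [hL]; positivity
  have hL2 : L ≤ 2 * n := by rw [hL]; nlinarith
  have hgt : (n : ℝ) < L := by rw [hL]; nlinarith
  have e1 : L / (L - n) ^ 2 ≤ 32 / (kap ^ 2 * n) := by
    have h3 : kap / 4 * n = L - n := by rw [hL]; ring
    rw [← h3]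
    calc L / (kap / 4 * n) ^ 2 ≤ (2 * n) / (kap / 4 * n) ^ 2 := by gcongr
      _ = 32 / (kap ^ 2 * n) := by
          have : (n : ℝ) ≠ 0 := by positivity
          field_simp
          norm_num
  have e2 := pois_lo (lam := L) (N := n) hgt
  set S := ∑' k, pw L (n + k) with hS
  have hlo := depois_lo d (lam := L) hL0 (MS_notCol (d := d) a (k + 1))
    (fun m => tup_notCol_mono d a (k + 1) m) n
  set lam := (1 - kap) * L with hlam
  have hlam0 : 0 ≤ lam := mul_nonneg (by linarith) hL0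
  have hlam1 : lam ≤ (1 - 3 * kap / 4) * n := by
    rw [hlam, hL]
    nlinarith [mul_pos hk0 hk0, mul_nonneg (mul_pos hk0 hk0).le (by linarith : (0:ℝ) ≤ n)]
  have hhi := depois_hi d (lam := lam) hlam0 (MS_notCol (d := d) a k)
    (fun m => tup_notCol_mono d a k m) (fun A => f2_ind_le_one _) n'
  have hN : lam < ((n' + 1 : ℕ) : ℝ) := by
    push_cast
    nlinarith
  have e6 := pois_hi (lam := lam) hlam0 hN
  have e7 : lam / (((n' + 1 : ℕ) : ℝ) - lam) ^ 2 ≤ 4 / (kap ^ 2 * n) := by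
    have h3 : kap / 2 * n ≤ ((n' + 1 : ℕ) : ℝ) - lam := by
      push_cast
      nlinarith
    have h4 : (kap / 2 * n) ^ 2 ≤ (((n' + 1 : ℕ) : ℝ) - lam) ^ 2 :=
      pow_le_pow_left₀ (by positivity) h3 2
    have h5 : lam ≤ n := by nlinarith
    have h6 : 0 < (kap / 2 * n) ^ 2 := by positivity
    calc lam / (((n' + 1 : ℕ) : ℝ) - lam) ^ 2 ≤ n / (kap / 2 * n) ^ 2 := by
          gcongr
      _ = 4 / (kap ^ 2 * n) := by
          have : (n : ℝ) ≠ 0 := by positivity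
          field_simp
          norm_num
  set T := tup (sig d) n (fun A => ind (¬ Col a (k + 1) A)) with hT
  have hT1 : T ≤ 1 := f2_tup_le_one d n fun A => f2_ind_le_one _
  have hsum : ENNReal.ofReal (4 / (kap ^ 2 * n)) + ENNReal.ofReal (32 / (kap ^ 2 * n)) =
      ENNReal.ofReal (36 / (kap ^ 2 * n)) := by
    rw [← ENNReal.ofReal_add (by positivity) (by positivity), ← add_div]
    norm_num
  calc T = T * 1 := by rw [mul_one]
    _ ≤ T * (S + ENNReal.ofReal (L / (L - n) ^ 2)) := by gcongr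
    _ = T * S + T * ENNReal.ofReal (L / (L - n) ^ 2) := by ring
    _ ≤ Poi (ENNReal.ofReal L • sig d) (fun A => ind (¬ Col a (k + 1) A)) +
          1 * ENNReal.ofReal (32 / (kap ^ 2 * n)) := by gcongr
    _ ≤ (tup (sig d) n' (fun A => ind (¬ Col a k A)) + ENNReal.ofReal (4 / (kap ^ 2 * n))) +
          ENNReal.ofReal (32 / (kap ^ 2 * n)) := by
        rw [one_mul]
        gcongr
        refine hmain.trans (hhi.trans ?_)
        gcongr
        exact e6.trans (ENNReal.ofReal_le_ofReal e7)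
    _ = _ := by rw [add_assoc, hsum]

theorem prob_le_one (d n : ℕ) (α : ℝ) (k : ℕ) : prob d n α k ≤ 1 := by
  unfold prob
  exact (measure_mono (subset_univ _)).trans (by simp)

theorem prob_mono_n (d : ℕ) {k : ℕ} (hk : 0 < k) {α : ℝ} (h0 : 0 < α) (h1 : α ≤ Real.pi)
    {m n : ℕ} (h : m ≤ n) : prob d m α k ≤ prob d n α k := by
  rw [prob_eq d m hk h0 h1, prob_eq d n hk h0 h1]
  exact monotone_nat_of_le_succ (fun i => tup_notCol_mono d _ k i) h

/-- The comparison inequality (*). -/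
theorem star (d : ℕ) (hd : 1 ≤ d) (hM : MasterIneq d) (C : ℝ) (hC : 0 < C) :
    ∃ ε : ℝ, 0 < ε ∧ ε < 1 ∧ ∃ err : ℕ → ℝ≥0∞, Tendsto err atTop (𝓝 0) ∧
      ∀ (k n : ℕ) (α : ℝ), 1 ≤ k → 0 < α → α ≤ C * (n : ℝ) ^ (-(1 : ℝ) / d) →
        prob d n α (k + 1) ≤ prob d ⌈(1 - ε) * (n : ℝ)⌉₊ α k + err n := by
  obtain ⟨kap, hk0, hk1, hm⟩ := hM (2 * C ^ d) (by positivity)
  have hβ0 : Tendsto (fun n : ℕ => C * (n : ℝ) ^ (-(1 : ℝ) / d)) atTop (𝓝 0) :=
    f2_tendsto_rpow hd _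
  obtain ⟨n₀, hn₀⟩ := eventually_atTop.1 (hβ0.eventually_lt_const (by norm_num : (0 : ℝ) < 1 / 4))
  refine ⟨kap / 4, by positivity, by linarith,
    fun n => if n < max n₀ 1 then 1 else ENNReal.ofReal (36 / (kap ^ 2 * n)), ?_, ?_⟩
  · have h1 : Tendsto (fun n : ℕ => ENNReal.ofReal (36 / (kap ^ 2 * (n : ℝ)))) atTop (𝓝 0) := by
      have h2 : Tendsto (fun n : ℕ => kap ^ 2 * (n : ℝ)) atTop atTop :=
        Tendsto.const_mul_atTop (by positivity) tendsto_natCast_atTop_atTop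
      have := ENNReal.tendsto_ofReal (h2.const_div_atTop 36)
      rwa [ENNReal.ofReal_zero] at this
    refine h1.congr' ?_
    filter_upwards [eventually_ge_atTop (max n₀ 1)] with n hn
    rw [if_neg (not_lt.2 hn)]
  · intro k n α hk hα hαC
    by_cases hn : n < max n₀ 1
    · simp only [hn, if_true]
      exact (prob_le_one _ _ _ _).trans le_add_self
    · simp only [hn, if_false]
      rw [not_lt, max_le_iff] at hn
      have hn1 : (1 : ℝ) ≤ n := by exact_mod_cast hn.2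
      have hα4 : α < 1 / 4 := lt_of_le_of_lt hαC (hn₀ n hn.1)
      have hpi : α ≤ Real.pi := by linarith [Real.pi_gt_three]
      have ha_le : 2 * Real.sin (α / 2) ≤ α := by
        have := Real.sin_le (x := α / 2) (by linarith)
        linarith
      have ha0 : 0 < 2 * Real.sin (α / 2) := by
        have := Real.sin_pos_of_pos_of_lt_pi (x := α / 2) (by linarith)
          (by linarith [Real.pi_gt_three])
        linarith
      rw [prob_eq d n (Nat.succ_pos k) hα hpi, prob_eq d _ (by omega : 0 < k) hα hpi]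
      refine f2_key (L := (1 + kap / 4) * n) hk0 hk1 rfl hn.2 (Nat.le_ceil _) ?_
      refine hm _ _ k ha0 (by linarith) (by positivity) ?_
      have h5 : (2 * Real.sin (α / 2)) ^ d ≤ (C * (n : ℝ) ^ (-(1 : ℝ) / d)) ^ d :=
        pow_le_pow_left₀ ha0.le (ha_le.trans hαC) d
      rw [mul_pow C, f2_rpow_inv hd (by linarith : (0 : ℝ) < n)] at h5
      calc (1 + kap / 4) * n * (2 * Real.sin (α / 2)) ^ d
          ≤ 2 * n * (C ^ d * (n : ℝ)⁻¹) := by
            gcongr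
            linarith
        _ = 2 * C ^ d := by field_simp

theorem f2_rpow_le {d : ℕ} {x y ρ : ℝ} (hx : 0 < x) (hy : 0 < y) (hρ : 0 < ρ)
    (h : x ≤ ρ * y) : (ρ ^ ((1 : ℝ) / d))⁻¹ * y ^ (-(1 : ℝ) / d) ≤ x ^ (-(1 : ℝ) / d) := by
  have e2 : (ρ * y) ^ (-(1 : ℝ) / d) = (ρ ^ ((1 : ℝ) / d))⁻¹ * y ^ (-(1 : ℝ) / d) := by
    rw [Real.mul_rpow hρ.le hy.le, ← Real.rpow_neg hρ.le, neg_div]
  rw [← e2]
  apply Real.rpow_le_rpow_of_nonpos hx h
  rw [neg_div]
  have : (0 : ℝ) ≤ 1 / d := by positivity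
  linarith

theorem lower_step (d : ℕ) (hd : 1 ≤ d) (hM : MasterIneq d) {k : ℕ} (hk : 1 ≤ k) {c : ℝ}
    (hc : 0 < c) (h : LowerAt d k c) : ∃ δ : ℝ, 0 < δ ∧ LowerAt d (k + 1) (c + δ) := by
  obtain ⟨e, he0, he1, err, herr, hst⟩ := star d hd hM (2 * c) (by positivity)
  set ρ : ℝ := (1 - e / 2) ^ ((1 : ℝ) / d) with hρ
  have hb : 0 < 1 - e / 2 := by linarith
  have hρ0 : 0 < ρ := Real.rpow_pos_of_pos hb _
  have hρ1 : ρ < 1 := Real.rpow_lt_one hb.le (by linarith) (by positivity)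
  refine ⟨c * (1 - ρ), mul_pos hc (by linarith), ?_⟩
  intro ε hε α hα
  have hε1 : ε < 1 := by
    by_contra hcon
    have h1 := hα 1 le_rfl
    simp only [Nat.cast_one, Real.one_rpow, mul_one] at h1
    have : (1 - ε) * (c + c * (1 - ρ)) ≤ 0 :=
      mul_nonpos_of_nonpos_of_nonneg (by linarith) (by nlinarith)
    linarith
  set n' : ℕ → ℕ := fun n => ⌈(1 - e) * (n : ℝ)⌉₊ with hn'
  have hn'top : Tendsto n' atTop atTop := by
    apply tendsto_nat_ceil_atTop.comp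
    exact Tendsto.const_mul_atTop (by linarith) tendsto_natCast_atTop_atTop
  have hsub : Tendsto (fun m : ℕ => prob d m ((1 - ε) * c * (m : ℝ) ^ (-(1 : ℝ) / d)) k)
      atTop (𝓝 0) := by
    apply h (ε / 2) (by positivity)
    intro m hm
    have hm0 : (0 : ℝ) < m := by exact_mod_cast hm
    have hp : 0 < (m : ℝ) ^ (-(1 : ℝ) / d) := Real.rpow_pos_of_pos hm0 _
    refine ⟨by have : 0 < 1 - ε := by linarith
               positivity, ?_⟩
    have : 0 < c * (m : ℝ) ^ (-(1 : ℝ) / d) := by positivity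
    nlinarith
  have hlim : Tendsto (fun n : ℕ => prob d (n' n) ((1 - ε) * c * ((n' n : ℕ) : ℝ) ^ (-(1 : ℝ) / d)) k
      + err n) atTop (𝓝 0) := by
    have := (hsub.comp hn'top).add herr
    simpa using this
  refine tendsto_of_tendsto_of_tendsto_of_le_of_le' tendsto_const_nhds hlim
    (Eventually.of_forall fun _ => bot_le) ?_
  have ev : ∀ᶠ n : ℕ in atTop, 1 ≤ e / 2 * (n : ℝ) :=
    (Tendsto.const_mul_atTop (by positivity) tendsto_natCast_atTop_atTop).eventually_ge_atTop 1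
  filter_upwards [eventually_ge_atTop 1, ev, hn'top.eventually_ge_atTop 1] with n hn hen hn1
  have hn0 : (0 : ℝ) < n := by exact_mod_cast hn
  have hp : 0 < (n : ℝ) ^ (-(1 : ℝ) / d) := Real.rpow_pos_of_pos hn0 _
  obtain ⟨h1, h2⟩ := hα n hn
  have h3 := hst k n (α n) hk h1 (by
    refine h2.le.trans ?_
    have : (1 - ε) * (c + c * (1 - ρ)) ≤ 2 * c := by nlinarith [mul_pos hc hρ0, mul_pos hc hε]
    gcongr)
  refine h3.trans ?_
  gcongr
  apply prob_mono_alpha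
  have hceil : ((n' n : ℕ) : ℝ) ≤ (1 - e / 2) * n := by
    have := Nat.ceil_lt_add_one (a := (1 - e) * (n : ℝ)) (by
      have : 0 < 1 - e := by linarith
      positivity)
    simp only [hn']
    linarith
  have hn'0 : (0 : ℝ) < n' n := by exact_mod_cast hn1
  have h4 := f2_rpow_le (d := d) hn'0 hn0 hb hceil
  have h5 : (c + c * (1 - ρ)) ≤ c * ρ⁻¹ := by
    rw [← div_eq_mul_inv, le_div_iff₀ hρ0]
    nlinarith [mul_nonneg hc.le (sq_nonneg (1 - ρ))]
  calc α n ≤ (1 - ε) * (c + c * (1 - ρ)) * (n : ℝ) ^ (-(1 : ℝ) / d) := h2.le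
    _ ≤ (1 - ε) * (c * ρ⁻¹) * (n : ℝ) ^ (-(1 : ℝ) / d) := by
        have : 0 < 1 - ε := by linarith
        gcongr
    _ = (1 - ε) * c * (ρ⁻¹ * (n : ℝ) ^ (-(1 : ℝ) / d)) := by ring
    _ ≤ (1 - ε) * c * ((n' n : ℕ) : ℝ) ^ (-(1 : ℝ) / d) := by
        have : 0 < 1 - ε := by linarith
        gcongr

theorem upper_step (d : ℕ) (hd : 1 ≤ d) (hM : MasterIneq d) {k : ℕ} (hk : 1 ≤ k) {c : ℝ}
    (hc : 0 < c) (h : UpperAt d (k + 1) c) :
    ∃ δ : ℝ, 0 < δ ∧ δ < c ∧ UpperAt d k (c - δ) := by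
  obtain ⟨e, he0, he1, err, herr, hst⟩ := star d hd hM (2 * c) (by positivity)
  set ρ : ℝ := (1 - e / 2) ^ ((1 : ℝ) / d) with hρ
  have hb : 0 < 1 - e / 2 := by linarith
  have hρ0 : 0 < ρ := Real.rpow_pos_of_pos hb _
  have hρ1 : ρ < 1 := Real.rpow_lt_one hb.le (by linarith) (by positivity)
  refine ⟨c * (1 - ρ), mul_pos hc (by linarith), by nlinarith, ?_⟩
  intro ε hε α hα
  set ε' : ℝ := min ε 1 / 2 with hε'
  have hε'0 : 0 < ε' := by rw [hε']; have := lt_min hε one_pos; positivity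
  have hε'1 : ε' ≤ 1 := by rw [hε']; linarith [min_le_right ε 1]
  have hε'2 : ε' ≤ ε := by rw [hε']; linarith [min_le_left ε 1]
  -- `n m` with `⌈(1-e) n⌉ = m`
  set nn : ℕ → ℕ := fun m => ⌊(m : ℝ) / (1 - e)⌋₊ with hnn
  have h1e : 0 < 1 - e := by linarith
  have hnntop : Tendsto nn atTop atTop := by
    apply tendsto_nat_floor_atTop.comp
    exact tendsto_natCast_atTop_atTop.atTop_div_const h1e
  have hceil : ∀ m : ℕ, 1 ≤ m → ⌈(1 - e) * (nn m : ℝ)⌉₊ = m := by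
    intro m hm
    have h1 : ((nn m : ℕ) : ℝ) ≤ m / (1 - e) := Nat.floor_le (by positivity)
    have h2 : (m : ℝ) / (1 - e) < nn m + 1 := Nat.lt_floor_add_one _
    rw [le_div_iff₀ h1e] at h1
    rw [div_lt_iff₀ h1e] at h2
    rw [Nat.ceil_eq_iff (by omega)]
    constructor
    · have : ((m - 1 : ℕ) : ℝ) = m - 1 := by
        rw [Nat.cast_sub hm]; simp
      rw [this]
      nlinarith
    · linarith
  have hup : Tendsto (fun n : ℕ => prob d n ((1 + ε') * c * (n : ℝ) ^ (-(1 : ℝ) / d)) (k + 1))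
      atTop (𝓝 1) := by
    apply h (ε' / 2) (by positivity)
    intro n hn
    have hn0 : (0 : ℝ) < n := by exact_mod_cast hn
    have hp : 0 < c * (n : ℝ) ^ (-(1 : ℝ) / d) := by positivity
    nlinarith
  have hlow : Tendsto (fun m : ℕ => prob d (nn m)
      ((1 + ε') * c * ((nn m : ℕ) : ℝ) ^ (-(1 : ℝ) / d)) (k + 1) - err (nn m)) atTop (𝓝 1) := by
    have := ENNReal.Tendsto.sub (hup.comp hnntop) (herr.comp hnntop) (Or.inl (by simp))
    simpa using this
  refine tendsto_of_tendsto_of_tendsto_of_le_of_le' hlow tendsto_const_nhds ?_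
    (Eventually.of_forall fun m => prob_le_one _ _ _ _)
  have ev : ∀ᶠ n : ℕ in atTop, 1 ≤ e / 2 * (n : ℝ) :=
    (Tendsto.const_mul_atTop (by positivity) tendsto_natCast_atTop_atTop).eventually_ge_atTop 1
  filter_upwards [eventually_ge_atTop 1, hnntop.eventually ev,
    hnntop.eventually_ge_atTop 1] with m hm hen hn1
  rw [tsub_le_iff_right]
  have hm0 : (0 : ℝ) < m := by exact_mod_cast hm
  have hn0 : (0 : ℝ) < nn m := by exact_mod_cast hn1
  have hp : 0 < ((nn m : ℕ) : ℝ) ^ (-(1 : ℝ) / d) := Real.rpow_pos_of_pos hn0 _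
  have h3 := hst k (nn m) ((1 + ε') * c * ((nn m : ℕ) : ℝ) ^ (-(1 : ℝ) / d)) hk (by positivity) (by
    have : (1 + ε') * c ≤ 2 * c := by nlinarith
    gcongr)
  rw [hceil m hm] at h3
  refine h3.trans ?_
  gcongr
  apply prob_mono_alpha
  have hle : (m : ℝ) ≤ (1 - e / 2) * nn m := by
    have := Nat.ceil_lt_add_one (a := (1 - e) * (nn m : ℝ)) (by positivity)
    rw [hceil m hm] at this
    linarith
  have h4 := f2_rpow_le (d := d) hm0 hn0 hb hle
  calc (1 + ε') * c * ((nn m : ℕ) : ℝ) ^ (-(1 : ℝ) / d)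
      ≤ (1 + ε) * c * ((nn m : ℕ) : ℝ) ^ (-(1 : ℝ) / d) := by gcongr
    _ = (1 + ε) * (c - c * (1 - ρ)) * (ρ⁻¹ * ((nn m : ℕ) : ℝ) ^ (-(1 : ℝ) / d)) := by
        field_simp
        ring
    _ ≤ (1 + ε) * (c - c * (1 - ρ)) * (m : ℝ) ^ (-(1 : ℝ) / d) := by
        have : c - c * (1 - ρ) = c * ρ := by ring
        rw [this]
        gcongr
    _ ≤ α m := (hα m hm).le

theorem strict (d : ℕ) (hd : 1 ≤ d) (hM : MasterIneq d) {k : ℕ} (hk : 1 ≤ k) {c c' : ℝ}
    (hc : 0 < c) (h : LowerAt d k c) (h' : UpperAt d (k + 1) c') : c < c' := by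
  by_contra hcon
  rw [not_lt] at hcon
  obtain ⟨δ, hδ, hl⟩ := lower_step d hd hM hk hc h
  set ε : ℝ := δ / (4 * (c + δ)) with hε
  have hε0 : 0 < ε := by positivity
  have hε1 : ε * (c + δ) = δ / 4 := by rw [hε]; field_simp
  have hε2 : ε * c ≤ δ / 4 := by
    rw [← hε1]; gcongr; linarith
  have h1 := hl ε hε0 (fun n => (c + δ / 2) * (n : ℝ) ^ (-(1 : ℝ) / d)) (by
    intro n hn
    have hn0 : (0 : ℝ) < n := by exact_mod_cast hn
    have hp : 0 < (n : ℝ) ^ (-(1 : ℝ) / d) := Real.rpow_pos_of_pos hn0 _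
    refine ⟨by positivity, ?_⟩
    apply mul_lt_mul_of_pos_right _ hp
    nlinarith)
  have h2 := h' ε hε0 (fun n => (c + δ / 2) * (n : ℝ) ^ (-(1 : ℝ) / d)) (by
    intro n hn
    have hn0 : (0 : ℝ) < n := by exact_mod_cast hn
    have hp : 0 < (n : ℝ) ^ (-(1 : ℝ) / d) := Real.rpow_pos_of_pos hn0 _
    apply mul_lt_mul_of_pos_right _ hp
    nlinarith)
  exact zero_ne_one (tendsto_nhds_unique h1 h2)

end Pool.Agent.Helper97.BG
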