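import Mathlib
import Pool.Agent.Helper97.BG.Stmt2
import Pool.Agent.Helper97.BG.Final2
import Pool.Agent.Helper94.B2.St.G5

/-!
MP_8410f8_pr, Q1: the strict ordering of the colourability thresholds of the random Borsuk graph.
-/

open Filter Topology
open scoped ENNReal

namespace Pool.Agent.Helper97.BG

theorem master (d : ℕ) : MasterIneq d := by
  intro c hc
  obtain ⟨κ, h0, h1, h⟩ := Pool.Agent.Helper94.B2.MAIN d c hc
  exact ⟨κ, h0, h1, fun a L k ha ha1 hL hLa => h a ha (by linarith) L hL hLa k⟩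

/-- Strict ordering of the thresholds. -/
theorem strictMain (d : ℕ) (hd : 2 ≤ d) :
    (∀ C : ℝ, 0 < C → ∃ ε : ℝ, 0 < ε ∧ ε < 1 ∧ ∃ err : ℕ → ℝ≥0∞, Tendsto err atTop (𝓝 0) ∧
      ∀ (k n : ℕ) (α : ℝ), 1 ≤ k → 0 < α → α ≤ C * (n : ℝ) ^ (-(1 : ℝ) / d) →
        prob d n α (k + 1) ≤ prob d ⌈(1 - ε) * (n : ℝ)⌉₊ α k + err n) ∧
    (∀ (k : ℕ) (c : ℝ), 1 ≤ k → 0 < c → LowerAt d k c →
      ∃ δ : ℝ, 0 < δ ∧ LowerAt d (k + 1) (c + δ)) ∧
    (∀ (k : ℕ) (c : ℝ), 1 ≤ k → 0 < c → UpperAt d (k + 1) c →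
      ∃ δ : ℝ, 0 < δ ∧ δ < c ∧ UpperAt d k (c - δ)) ∧
    (∀ c : ℕ → ℝ, (∀ k, 2 ≤ k → k ≤ d → 0 < c k ∧ LowerAt d k (c k) ∧ UpperAt d k (c k)) →
      ∀ k l, 2 ≤ k → k < l → l ≤ d → c k < c l) := by
  have hd1 : 1 ≤ d := by omega
  refine ⟨fun C hC => star d hd1 (master d) C hC,
    fun k c hk hc h => lower_step d hd1 (master d) hk hc h,
    fun k c hk hc h => upper_step d hd1 (master d) hk hc h, ?_⟩
  intro c h k l hk hkl
  induction l, hkl using Nat.le_induction with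
  | base =>
    intro hl
    exact strict d hd1 (master d) (by omega) (h k hk (by omega)).1 (h k hk (by omega)).2.1
      (h (k + 1) (by omega) hl).2.2
  | succ l hl ih =>
    intro hl'
    exact (ih (by omega)).trans (strict d hd1 (master d) (by omega)
      (h l (by omega) (by omega)).1 (h l (by omega) (by omega)).2.1 (h (l + 1) (by omega) hl').2.2)

end Pool.Agent.Helper97.BG
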