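import Pool.Agent.Helper97.BG.Stmt2
import Pool.Agent.Helper97.BG.Final2

/-!
Project BG (MP_8410f8_pr): superadditivity of the lower thresholds.
-/

open MeasureTheory Set Filter Topology
open scoped ENNReal

namespace Pool.Agent.Helper97.BG

/-- Splitting the points: `P_{m+n}(χ > j + k) ≤ P_m(χ > j) + P_n(χ > k)`. -/
theorem prob_add (d : ℕ) {j k m n : ℕ} (hj : 1 ≤ j) (hk : 1 ≤ k) {α : ℝ} (h0 : 0 < α)
    (h1 : α ≤ Real.pi) : prob d (m + n) α (j + k) ≤ prob d m α j + prob d n α k := by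
  rw [prob_eq d (m + n) (by omega : 0 < j + k) h0 h1, prob_eq d m (by omega : 0 < j) h0 h1,
    prob_eq d n (by omega : 0 < k) h0 h1]
  exact tup_notCol_add d _ j k m n

/-- A subsequence form of `LowerAt`. -/
theorem LowerAt.sub {d k : ℕ} {c : ℝ} (hc : 0 < c) (h : LowerAt d k c) {ε : ℝ} (hε : 0 < ε)
    (hε1 : ε < 1) {ν : ℕ → ℕ} (hν : Tendsto ν atTop atTop) {α : ℕ → ℝ}
    (hα : ∀ᶠ n in atTop, α n ≤ (1 - ε) * c * (ν n : ℝ) ^ (-(1 : ℝ) / d)) :
    Tendsto (fun n => prob d (ν n) (α n) k) atTop (𝓝 0) := by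
  have hsub : Tendsto (fun m : ℕ => prob d m ((1 - ε) * c * (m : ℝ) ^ (-(1 : ℝ) / d)) k)
      atTop (𝓝 0) := by
    apply h (ε / 2) (by positivity)
    intro m hm
    have hm0 : (0 : ℝ) < m := by exact_mod_cast hm
    have hp : 0 < (m : ℝ) ^ (-(1 : ℝ) / d) := Real.rpow_pos_of_pos hm0 _
    refine ⟨by have : 0 < 1 - ε := by linarith
               positivity, ?_⟩
    have : 0 < c * (m : ℝ) ^ (-(1 : ℝ) / d) := by positivity
    nlinarith
  refine tendsto_of_tendsto_of_tendsto_of_le_of_le' tendsto_const_nhds (hsub.comp hν)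
    (Eventually.of_forall fun _ => bot_le) ?_
  filter_upwards [hα] with n hn
  exact prob_mono_alpha d _ k hn

/-- Superadditivity of the lower thresholds. -/
theorem superadd (d : ℕ) (hd : 1 ≤ d) {j k : ℕ} (hj : 1 ≤ j) (hk : 1 ≤ k) {a b : ℝ}
    (ha : 0 < a) (hb : 0 < b) (hA : LowerAt d j a) (hB : LowerAt d k b) :
    LowerAt d (j + k) ((a ^ d + b ^ d) ^ ((1 : ℝ) / d)) := by
  set s : ℝ := a ^ d + b ^ d with hs
  have had : 0 < a ^ d := by positivity
  have hbd : 0 < b ^ d := by positivity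
  have hs0 : 0 < s := by positivity
  have hdR : (d : ℝ) ≠ 0 := by positivity
  intro ε hε α hα
  have hε1 : ε < 1 := by
    by_contra hcon
    have h1 := hα 1 le_rfl
    simp only [Nat.cast_one, Real.one_rpow, mul_one] at h1
    have : (1 - ε) * s ^ ((1 : ℝ) / d) ≤ 0 :=
      mul_nonpos_of_nonpos_of_nonneg (by linarith) (by positivity)
    linarith
  -- the sizes of the two parts
  set m : ℕ → ℕ := fun n => ⌊a ^ d / s * (n : ℝ)⌋₊ with hm
  set l : ℕ → ℕ := fun n => n - m n with hl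
  have hpa : 0 < a ^ d / s := by positivity
  have hpb : 0 < b ^ d / s := by positivity
  have hab : a ^ d / s + b ^ d / s = 1 := by rw [← add_div, ← hs]; field_simp
  have hmtop : Tendsto m atTop atTop := by
    apply tendsto_nat_floor_atTop.comp
    exact Tendsto.const_mul_atTop hpa tendsto_natCast_atTop_atTop
  have hm1 : ∀ n, ((m n : ℕ) : ℝ) ≤ a ^ d / s * n := fun n => Nat.floor_le (by positivity)
  have hm2 : ∀ n, a ^ d / s * n < (m n : ℕ) + 1 := fun n => Nat.lt_floor_add_one _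
  have hmn : ∀ n, m n ≤ n := by
    intro n
    have : ((m n : ℕ) : ℝ) ≤ n := by
      refine (hm1 n).trans ?_
      have : a ^ d / s ≤ 1 := by linarith
      have hn : (0 : ℝ) ≤ n := by positivity
      nlinarith
    exact_mod_cast this
  have hlR : ∀ n, ((l n : ℕ) : ℝ) = n - m n := fun n => by
    rw [hl]; exact Nat.cast_sub (hmn n)
  have hl1 : ∀ n, b ^ d / s * n ≤ ((l n : ℕ) : ℝ) := by
    intro n
    rw [hlR]
    have := hm1 n
    have h3 : b ^ d / s = 1 - a ^ d / s := by linarith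
    rw [h3]; linarith
  have hl2 : ∀ n, ((l n : ℕ) : ℝ) ≤ b ^ d / s * n + 1 := by
    intro n
    rw [hlR]
    have := hm2 n
    have h3 : b ^ d / s = 1 - a ^ d / s := by linarith
    rw [h3]; linarith
  have hltop : Tendsto l atTop atTop := by
    have h1 : Tendsto (fun n : ℕ => b ^ d / s * (n : ℝ)) atTop atTop :=
      Tendsto.const_mul_atTop hpb tendsto_natCast_atTop_atTop
    exact tendsto_natCast_atTop_iff.1 (tendsto_atTop_mono hl1 h1)
  -- auxiliary: `(t^d / s * n)^{-1/d} = s^{1/d} / t * n^{-1/d}`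
  have hkey : ∀ t : ℝ, 0 < t → ∀ n : ℕ, 1 ≤ n →
      t * (t ^ d / s * (n : ℝ)) ^ (-(1 : ℝ) / d) =
        s ^ ((1 : ℝ) / d) * (n : ℝ) ^ (-(1 : ℝ) / d) := by
    intro t ht n hn
    have hn0 : (0 : ℝ) < n := by exact_mod_cast hn
    rw [Real.mul_rpow (by positivity) hn0.le, Real.div_rpow (by positivity) hs0.le, ← mul_assoc]
    congr 1
    have e1 : (t ^ d) ^ (-(1 : ℝ) / d) = t⁻¹ := by
      rw [← Real.rpow_natCast, ← Real.rpow_mul ht.le]
      have : (d : ℝ) * (-(1 : ℝ) / d) = -1 := by field_simp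
      rw [this, Real.rpow_neg_one]
    have e2 : s ^ (-(1 : ℝ) / d) = (s ^ ((1 : ℝ) / d))⁻¹ := by
      rw [neg_div, Real.rpow_neg hs0.le]
    rw [e1, e2]
    have : 0 < s ^ ((1 : ℝ) / d) := by positivity
    field_simp
  have hexp : -(1 : ℝ) / d ≤ 0 := by
    rw [neg_div]
    have : (0 : ℝ) ≤ 1 / d := by positivity
    linarith
  -- first part
  have hlim1 : Tendsto (fun n => prob d (m n) (α n) j) atTop (𝓝 0) := by
    refine hA.sub ha hε hε1 hmtop ?_
    filter_upwards [eventually_ge_atTop 1, hmtop.eventually_ge_atTop 1] with n hn hn1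
    have hn0 : (0 : ℝ) < n := by exact_mod_cast hn
    have hm0 : (0 : ℝ) < m n := by exact_mod_cast hn1
    calc α n ≤ (1 - ε) * s ^ ((1 : ℝ) / d) * (n : ℝ) ^ (-(1 : ℝ) / d) := (hα n hn).2.le
      _ = (1 - ε) * a * (a ^ d / s * (n : ℝ)) ^ (-(1 : ℝ) / d) := by
          rw [mul_assoc, mul_assoc, hkey a ha n hn]
      _ ≤ (1 - ε) * a * ((m n : ℕ) : ℝ) ^ (-(1 : ℝ) / d) := by
          have h1 : 0 < 1 - ε := by linarith
          have := Real.rpow_le_rpow_of_nonpos hm0 (hm1 n) hexp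
          gcongr
  -- second part
  have hlim2 : Tendsto (fun n => prob d (l n) (α n) k) atTop (𝓝 0) := by
    refine hB.sub hb (by positivity : 0 < ε / 2) (by linarith) hltop ?_
    -- `(1 + 1/(pb n))^{-1/d} → 1`
    have hr : Tendsto (fun n : ℕ => ((1 : ℝ) + 1 / (b ^ d / s * (n : ℝ))) ^ (-(1 : ℝ) / d))
        atTop (𝓝 1) := by
      have h1 : Tendsto (fun n : ℕ => b ^ d / s * (n : ℝ)) atTop atTop :=
        Tendsto.const_mul_atTop hpb tendsto_natCast_atTop_atTop
      have h2 : Tendsto (fun n : ℕ => (1 : ℝ) + 1 / (b ^ d / s * (n : ℝ))) atTop (𝓝 (1 + 0)) :=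
        tendsto_const_nhds.add (h1.const_div_atTop 1)
      rw [add_zero] at h2
      have h3 := h2.rpow_const (p := -(1 : ℝ) / d) (Or.inl one_ne_zero)
      rwa [Real.one_rpow] at h3
    have hlt : (1 - ε) / (1 - ε / 2) < 1 := by
      rw [div_lt_one (by linarith)]; linarith
    filter_upwards [eventually_ge_atTop 1, hr.eventually_const_lt hlt] with n hn hn2
    have hn0 : (0 : ℝ) < n := by exact_mod_cast hn
    have hx0 : 0 < b ^ d / s * (n : ℝ) := by positivity
    have hl0 : (0 : ℝ) < l n := hx0.trans_le (hl1 n)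
    have h2e : 0 < 1 - ε / 2 := by linarith
    rw [div_lt_iff₀ h2e] at hn2
    have hfac : (b ^ d / s * (n : ℝ) + 1) ^ (-(1 : ℝ) / d) =
        (b ^ d / s * (n : ℝ)) ^ (-(1 : ℝ) / d) *
          (1 + 1 / (b ^ d / s * (n : ℝ))) ^ (-(1 : ℝ) / d) := by
      rw [← Real.mul_rpow hx0.le (by positivity)]
      congr 1
      field_simp
    have hX : 0 < (b ^ d / s * (n : ℝ)) ^ (-(1 : ℝ) / d) := by positivity
    calc α n ≤ (1 - ε) * s ^ ((1 : ℝ) / d) * (n : ℝ) ^ (-(1 : ℝ) / d) := (hα n hn).2.le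
      _ = (1 - ε) * (b * (b ^ d / s * (n : ℝ)) ^ (-(1 : ℝ) / d)) := by
          rw [mul_assoc, hkey b hb n hn]
      _ ≤ ((1 + 1 / (b ^ d / s * (n : ℝ))) ^ (-(1 : ℝ) / d) * (1 - ε / 2)) *
            (b * (b ^ d / s * (n : ℝ)) ^ (-(1 : ℝ) / d)) := by
          gcongr
      _ = (1 - ε / 2) * b * (b ^ d / s * (n : ℝ) + 1) ^ (-(1 : ℝ) / d) := by
          rw [hfac]; ring
      _ ≤ (1 - ε / 2) * b * ((l n : ℕ) : ℝ) ^ (-(1 : ℝ) / d) := by
          have := Real.rpow_le_rpow_of_nonpos hl0 (hl2 n) hexp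
          gcongr
  have hsum := hlim1.add hlim2
  rw [add_zero] at hsum
  have hβ0 : Tendsto (fun n : ℕ => (1 - ε) * s ^ ((1 : ℝ) / d) * (n : ℝ) ^ (-(1 : ℝ) / d))
      atTop (𝓝 0) := f2_tendsto_rpow hd _
  refine tendsto_of_tendsto_of_tendsto_of_le_of_le' tendsto_const_nhds hsum
    (Eventually.of_forall fun _ => bot_le) ?_
  filter_upwards [eventually_ge_atTop 1, hβ0.eventually_lt_const Real.pi_pos] with n hn hpi
  have := prob_add d (m := m n) (n := l n) hj hk (hα n hn).1 ((hα n hn).2.le.trans hpi.le)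
  rwa [show m n + l n = n by simp only [hl]; have := hmn n; omega] at this

end Pool.Agent.Helper97.BG
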