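import Pool.Agent.Helper97.BG.St.D6
import Pool.Agent.Helper97.BG.St.T1
import Pool.Agent.Helper97.BG.St.T2
import Pool.Agent.Helper97.BG.St.T4

/-!
Project BG (MP_8410f8_pr): final assembly.
-/

open MeasureTheory Set Filter Topology
open scoped ENNReal

namespace Pool.Agent.Helper97.BG

theorem fin_rpow_inv {d : ℕ} (hd : 1 ≤ d) {x : ℝ} (hx : 0 < x) :
    (x ^ (-(1 : ℝ) / d)) ^ d = x⁻¹ := by
  rw [← Real.rpow_natCast, ← Real.rpow_mul hx.le]
  have : -(1 : ℝ) / d * (d : ℝ) = -1 := by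
    have : (d : ℝ) ≠ 0 := by positivity
    field_simp
  rw [this, Real.rpow_neg_one]

theorem fin_tendsto_rpow {d : ℕ} (hd : 1 ≤ d) (c : ℝ) :
    Tendsto (fun n : ℕ => c * (n : ℝ) ^ (-(1 : ℝ) / d)) atTop (𝓝 0) := by
  have h1 : Tendsto (fun x : ℝ => x ^ (-(1 / (d : ℝ)))) atTop (𝓝 0) :=
    tendsto_rpow_neg_atTop (by positivity)
  have h2 := (h1.comp tendsto_natCast_atTop_atTop).const_mul c
  rw [mul_zero] at h2
  refine h2.congr fun n => ?_
  simp only [Function.comp]
  congr 2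
  ring

/-- The key inequality for one `n`. -/
theorem fin_key {d n n' : ℕ} {K η a lam : ℝ} (hlam : lam = (1 - η) * n) (hη : η = 1 / (16 * K))
    (hK : 1 ≤ K) (hn : 1 ≤ n) (hn' : (1 - η / 2) * n - 1 ≤ n')
    (hbig : 8 ≤ η ^ 2 * n)
    (hmain : Poi (ENNReal.ofReal (lam * (1 + 1 / (2 * K))) • sig d) (fun A => ind (¬ Col a 3 A)) ≤
        Poi (ENNReal.ofReal lam • sig d) (fun A => ind (¬ Col a 2 A))) :
    tup (sig d) n (fun A => ind (¬ Col a 3 A)) ≤
      2 * (tup (sig d) n' (fun A => ind (¬ Col a 2 A)) + ENNReal.ofReal (4 / (η ^ 2 * n))) := by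
  have hK0 : 0 < K := by linarith
  have hη0 : 0 < η := by rw [hη]; positivity
  have hη1 : η ≤ 1 / 16 := by
    rw [hη]
    apply one_div_le_one_div_of_le (by norm_num)
    linarith
  have h8 : 1 / (2 * K) = 8 * η := by rw [hη]; field_simp; norm_num
  have hn0 : (1 : ℝ) ≤ n := by exact_mod_cast hn
  have hlam0 : 0 ≤ lam := by rw [hlam]; nlinarith
  set lam2 := lam * (1 + 1 / (2 * K)) with hlam2
  have hl2 : (1 + η) * n ≤ lam2 := by
    rw [hlam2, h8, hlam]
    nlinarith [mul_nonneg hη0.le (by linarith : (0:ℝ) ≤ n), mul_pos hη0 hη0]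
  have hl2' : lam2 ≤ 3 / 2 * n := by
    rw [hlam2, h8, hlam]
    nlinarith [mul_nonneg hη0.le (by linarith : (0:ℝ) ≤ n), mul_pos hη0 hη0]
  have hgt : (n : ℝ) < lam2 := by nlinarith
  -- lower tail
  have e1 : lam2 / (lam2 - n) ^ 2 ≤ 1 / 2 := by
    have hp : 0 < lam2 - n := by linarith
    have h3 : η * n ≤ lam2 - n := by nlinarith
    have h4 : (η * n) ^ 2 ≤ (lam2 - n) ^ 2 := by
      apply pow_le_pow_left₀ (by positivity) h3
    rw [div_le_div_iff₀ (by positivity) (by norm_num)]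
    nlinarith
  have e2 := pois_lo (lam := lam2) (N := n) hgt
  have e3 : ENNReal.ofReal (lam2 / (lam2 - n) ^ 2) ≤ 1 / 2 := by
    calc ENNReal.ofReal (lam2 / (lam2 - n) ^ 2) ≤ ENNReal.ofReal (1 / 2) :=
          ENNReal.ofReal_le_ofReal e1
      _ = 1 / 2 := by
          rw [ENNReal.ofReal_div_of_pos (by norm_num)]; simp
  set S := ∑' k, pw lam2 (n + k) with hS
  have e4 : (1 : ℝ≥0∞) ≤ S + 1 / 2 := e2.trans (by gcongr)
  have e5 : (1 : ℝ≥0∞) ≤ 2 * S := by
    have : (1 : ℝ≥0∞) / 2 ≤ S := by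
      have h : (1 : ℝ≥0∞) / 2 + 1 / 2 ≤ S + 1 / 2 := by
        rw [ENNReal.add_halves]; exact e4
      exact (ENNReal.add_le_add_iff_right (by simp)).1 h
    calc (1 : ℝ≥0∞) = 2 * (1 / 2) := by
          rw [one_div, ENNReal.mul_inv_cancel (by simp) (by simp)]
      _ ≤ 2 * S := by gcongr
  have hlo := depois_lo d (lam := lam2) (by linarith) (MS_notCol (d := d) a 3)
    (fun m => tup_notCol_mono d a 3 m) n
  have hhi := depois_hi d (lam := lam) hlam0 (MS_notCol (d := d) a 2)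
    (fun m => tup_notCol_mono d a 2 m)
    (fun A => by unfold ind; split_ifs <;> simp) n'
  have hN : lam < ((n' + 1 : ℕ) : ℝ) := by
    push_cast
    rw [hlam]
    nlinarith
  have e6 := pois_hi (lam := lam) hlam0 hN
  have e7 : lam / (((n' + 1 : ℕ) : ℝ) - lam) ^ 2 ≤ 4 / (η ^ 2 * n) := by
    have h3 : η / 2 * n ≤ ((n' + 1 : ℕ) : ℝ) - lam := by
      push_cast
      rw [hlam]
      linarith
    have h4 : (η / 2 * n) ^ 2 ≤ (((n' + 1 : ℕ) : ℝ) - lam) ^ 2 :=
      pow_le_pow_left₀ (by positivity) h3 2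
    have h5 : lam ≤ n := by rw [hlam]; nlinarith
    have h6 : 0 < (η / 2 * n) ^ 2 := by positivity
    calc lam / (((n' + 1 : ℕ) : ℝ) - lam) ^ 2 ≤ n / (η / 2 * n) ^ 2 := by
          gcongr
      _ = 4 / (η ^ 2 * n) := by
          have : (n : ℝ) ≠ 0 := by positivity
          field_simp
          norm_num
  have e8 : Poi (ENNReal.ofReal lam • sig d) (fun A => ind (¬ Col a 2 A)) ≤
      tup (sig d) n' (fun A => ind (¬ Col a 2 A)) + ENNReal.ofReal (4 / (η ^ 2 * n)) := by
    refine hhi.trans ?_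
    gcongr
    exact e6.trans (ENNReal.ofReal_le_ofReal e7)
  calc tup (sig d) n (fun A => ind (¬ Col a 3 A))
      = tup (sig d) n (fun A => ind (¬ Col a 3 A)) * 1 := by rw [mul_one]
    _ ≤ tup (sig d) n (fun A => ind (¬ Col a 3 A)) * (2 * S) := by gcongr
    _ = 2 * (tup (sig d) n (fun A => ind (¬ Col a 3 A)) * S) := by ring
    _ ≤ 2 * (Poi (ENNReal.ofReal lam2 • sig d) (fun A => ind (¬ Col a 3 A))) := by gcongr
    _ ≤ 2 * (Poi (ENNReal.ofReal lam • sig d) (fun A => ind (¬ Col a 2 A))) := by gcongr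
    _ ≤ _ := by gcongr

set_option maxHeartbeats 1000000 in
theorem separation (d : ℕ) (hd : 1 ≤ d) (c₂ : ℝ) (hc₂ : 0 < c₂)
    (h₂ : ∀ ε > 0, ∀ α : ℕ → ℝ,
      (∀ n : ℕ, 1 ≤ n → 0 < α n ∧ α n ≤ (c₂ - ε) * (n : ℝ) ^ (-(1 : ℝ) / d)) →
      Tendsto (fun n => prob d n (α n) 2) atTop (𝓝 0)) :
    ∃ δ > 0, ∀ α : ℕ → ℝ,
      (∀ n : ℕ, 1 ≤ n → 0 < α n ∧ α n ≤ (c₂ + δ) * (n : ℝ) ^ (-(1 : ℝ) / d)) →
      Tendsto (fun n => prob d n (α n) 3) atTop (𝓝 0) := by
  have hd0 : (d : ℝ) ≠ 0 := by positivity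
  obtain ⟨v, w, hv, hw, hvw⟩ := sig_ball d
  -- constants
  set cs : ℝ := v * (c₂ / 64) ^ d / 8 with hcs
  set mm : ℝ := 2 * (w * (8 * c₂) ^ d) with hmm
  have hcs0 : 0 < cs := by positivity
  obtain ⟨K, hK, hmain⟩ := main_ineq (ENNReal.ofReal cs) (ENNReal.ofReal mm)
    (by simpa using hcs0) ENNReal.ofReal_ne_top
  set η : ℝ := 1 / (16 * K) with hη
  have hη0 : 0 < η := by rw [hη]; positivity
  have hη1 : η ≤ 1 / 16 := by
    rw [hη]
    apply one_div_le_one_div_of_le (by norm_num)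
    linarith
  set ρ : ℝ := (1 - η / 2) ^ ((1 : ℝ) / d) with hρ
  have hbase0 : 0 < 1 - η / 2 := by linarith
  have hρ0 : 0 < ρ := Real.rpow_pos_of_pos hbase0 _
  have hρ1 : ρ < 1 := Real.rpow_lt_one hbase0.le (by linarith) (by positivity)
  set δ : ℝ := c₂ * (1 - ρ) / 4 with hδ
  have hδ0 : 0 < δ := by
    have : 0 < 1 - ρ := by linarith
    rw [hδ]; positivity
  have hδ1 : δ ≤ c₂ := by
    rw [hδ]; nlinarith
  have hδρ : ρ * (c₂ + δ) ≤ c₂ - δ := by
    have h1 : ρ * δ ≤ δ := by nlinarith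
    have h2 : c₂ * (1 - ρ) = 4 * δ := by rw [hδ]; ring
    nlinarith
  refine ⟨δ, hδ0, ?_⟩
  -- the extremal sequences
  set β : ℕ → ℝ := fun n => (c₂ + δ) * (n : ℝ) ^ (-(1 : ℝ) / d) with hβ
  have hβpos : ∀ n : ℕ, 1 ≤ n → 0 < β n := by
    intro n hn
    have : (0 : ℝ) < n := by exact_mod_cast hn
    simp only [hβ]
    positivity
  have hβ0 : Tendsto β atTop (𝓝 0) := fin_tendsto_rpow hd _
  set n' : ℕ → ℕ := fun n => ⌊(1 - η / 2) * (n : ℝ)⌋₊ with hn'
  have hn'top : Tendsto n' atTop atTop := by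
    apply tendsto_nat_floor_atTop.comp
    exact Tendsto.const_mul_atTop hbase0 tendsto_natCast_atTop_atTop
  -- the subcritical input
  have hsub : Tendsto (fun m : ℕ => prob d m ((c₂ - δ) * (m : ℝ) ^ (-(1 : ℝ) / d)) 2) atTop (𝓝 0) := by
    apply h₂ δ hδ0 (fun m => (c₂ - δ) * (m : ℝ) ^ (-(1 : ℝ) / d))
    intro m hm
    have hm0 : (0 : ℝ) < m := by exact_mod_cast hm
    refine ⟨?_, le_rfl⟩
    have : 0 < c₂ - δ := by nlinarith [hδρ, mul_pos hρ0 (by linarith : 0 < c₂ + δ)]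
    positivity
  have hsub' := hsub.comp hn'top
  have hinv : Tendsto (fun n : ℕ => ENNReal.ofReal (4 / (η ^ 2 * n))) atTop (𝓝 0) := by
    have h1 : Tendsto (fun n : ℕ => 4 / (η ^ 2 * (n : ℝ))) atTop (𝓝 0) := by
      have h2 : Tendsto (fun n : ℕ => η ^ 2 * (n : ℝ)) atTop atTop :=
        Tendsto.const_mul_atTop (by positivity) tendsto_natCast_atTop_atTop
      exact h2.const_div_atTop 4
    have := ENNReal.tendsto_ofReal h1
    rwa [ENNReal.ofReal_zero] at this
  have hlim : Tendsto (fun n : ℕ => 2 * (prob d (n' n) ((c₂ - δ) * ((n' n : ℕ) : ℝ) ^ (-(1 : ℝ) / d)) 2 +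
      ENNReal.ofReal (4 / (η ^ 2 * n)))) atTop (𝓝 0) := by
    have h1 := hsub'.add hinv
    have h2 := ENNReal.Tendsto.const_mul (a := 2) h1 (Or.inr (by simp))
    simpa using h2
  -- eventually the key inequality
  have hev : ∀ᶠ n : ℕ in atTop, prob d n (β n) 3 ≤
      2 * (prob d (n' n) ((c₂ - δ) * ((n' n : ℕ) : ℝ) ^ (-(1 : ℝ) / d)) 2 +
      ENNReal.ofReal (4 / (η ^ 2 * n))) := by
    have ev1 : ∀ᶠ n : ℕ in atTop, β n < 1 / 400 := hβ0.eventually_lt_const (by norm_num)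
    have ev2 : ∀ᶠ n : ℕ in atTop, 8 ≤ η ^ 2 * (n : ℝ) :=
      (Tendsto.const_mul_atTop (by positivity : (0 : ℝ) < η ^ 2)
        tendsto_natCast_atTop_atTop).eventually_ge_atTop 8
    have ev3 : ∀ᶠ n : ℕ in atTop, 1 ≤ n' n := hn'top.eventually_ge_atTop 1
    filter_upwards [ev1, ev2, ev3, eventually_ge_atTop 1] with n h1 h2 h3 h4
    have hn0 : (0 : ℝ) < n := by exact_mod_cast h4
    have hβn := hβpos n h4
    have hpi : β n ≤ Real.pi := by linarith [Real.pi_gt_three]
    set a : ℝ := 2 * Real.sin (β n / 2) with ha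
    have ha_le : a ≤ β n := by
      have := Real.sin_le (x := β n / 2) (by linarith)
      linarith
    have ha_ge : β n / 2 ≤ a := by
      have := Real.mul_le_sin (x := β n / 2) (by linarith) (by linarith [Real.pi_gt_three])
      have hp : (1 : ℝ) / 4 ≤ 2 / Real.pi * (1 / 2) := by
        rw [div_mul_div_comm, le_div_iff₀ (by positivity)]
        linarith [Real.pi_lt_four]
      nlinarith
    have ha0 : 0 < a := by linarith
    have h400 : 400 * a ≤ 1 := by linarith
    set lam : ℝ := (1 - η) * n with hlam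
    have hlam0 : 0 < lam := by rw [hlam]; nlinarith
    have hlam1 : (n : ℝ) / 2 ≤ lam := by rw [hlam]; nlinarith
    have hlam2 : lam ≤ n := by rw [hlam]; nlinarith
    have hβd : (β n) ^ d = (c₂ + δ) ^ d * (n : ℝ)⁻¹ := by
      simp only [hβ]
      rw [mul_pow, fin_rpow_inv hd hn0]
    have hlo : ∀ p : Sph d, 2 * ENNReal.ofReal cs ≤
        ENNReal.ofReal lam * sig d (Metric.ball p (a / 32)) := by
      intro p
      have hb := (hvw p (a / 32) (by positivity) (by linarith)).1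
      calc 2 * ENNReal.ofReal cs = ENNReal.ofReal (2 * cs) := by
            rw [ENNReal.ofReal_mul (by norm_num)]; simp
        _ ≤ ENNReal.ofReal (lam * (v * (a / 32) ^ d)) := by
            apply ENNReal.ofReal_le_ofReal
            have h5 : (β n / 64) ^ d ≤ (a / 32) ^ d :=
              pow_le_pow_left₀ (by positivity) (by linarith) d
            have h6 : (c₂ / 64) ^ d * (n : ℝ)⁻¹ ≤ (β n / 64) ^ d := by
              rw [div_pow, div_pow, hβd]
              have : c₂ ^ d ≤ (c₂ + δ) ^ d := pow_le_pow_left₀ hc₂.le (by linarith) d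
              rw [div_mul_eq_mul_div]
              gcongr
            calc 2 * cs = v * (c₂ / 64) ^ d / 4 := by rw [hcs]; ring
              _ ≤ v * (c₂ / 64) ^ d / 2 := by
                  have : 0 < v * (c₂ / 64) ^ d := by positivity
                  linarith
              _ = (n / 2) * (v * ((c₂ / 64) ^ d * (n : ℝ)⁻¹)) := by field_simp
              _ ≤ lam * (v * (a / 32) ^ d) := by
                  gcongr
                  exact h6.trans h5
        _ = ENNReal.ofReal lam * ENNReal.ofReal (v * (a / 32) ^ d) :=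
            ENNReal.ofReal_mul hlam0.le
        _ ≤ _ := by gcongr
    have hhi : ∀ p : Sph d, 2 * ENNReal.ofReal lam * sig d (Metric.ball p (4 * a)) ≤
        ENNReal.ofReal mm := by
      intro p
      have hb := (hvw p (4 * a) (by positivity) (by linarith)).2
      calc 2 * ENNReal.ofReal lam * sig d (Metric.ball p (4 * a))
          ≤ 2 * ENNReal.ofReal lam * ENNReal.ofReal (w * (4 * a) ^ d) := by gcongr
        _ = ENNReal.ofReal (2 * lam * (w * (4 * a) ^ d)) := by
            have e1 : ENNReal.ofReal (2 * lam * (w * (4 * a) ^ d)) =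
                ENNReal.ofReal (2 * lam) * ENNReal.ofReal (w * (4 * a) ^ d) :=
              ENNReal.ofReal_mul (by positivity)
            have e2 : ENNReal.ofReal (2 * lam) = 2 * ENNReal.ofReal lam := by
              rw [ENNReal.ofReal_mul (by norm_num)]; simp
            rw [e1, e2]
        _ ≤ ENNReal.ofReal mm := by
            apply ENNReal.ofReal_le_ofReal
            have h5 : (4 * a) ^ d ≤ (4 * β n) ^ d :=
              pow_le_pow_left₀ (by positivity) (by linarith) d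
            have h6 : (4 * β n) ^ d ≤ (8 * c₂) ^ d * (n : ℝ)⁻¹ := by
              rw [mul_pow, hβd, ← mul_assoc, ← mul_pow]
              have : (4 * (c₂ + δ)) ^ d ≤ (8 * c₂) ^ d :=
                pow_le_pow_left₀ (by positivity) (by linarith) d
              gcongr
            calc 2 * lam * (w * (4 * a) ^ d) ≤ 2 * n * (w * ((8 * c₂) ^ d * (n : ℝ)⁻¹)) := by
                  gcongr
                  exact h5.trans h6
              _ = mm := by rw [hmm]; field_simp
    have key := fin_key (d := d) (n := n) (n' := n' n) (a := a) hlam hη hK h4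
      (by
        have := Nat.lt_floor_add_one ((1 - η / 2) * (n : ℝ))
        simp only [hn']
        linarith) h2 (hmain d a lam ha0 h400 hlam0 hlo hhi)
    have hn'0 : (0 : ℝ) < n' n := by exact_mod_cast h3
    have hle : β n ≤ (c₂ - δ) * ((n' n : ℕ) : ℝ) ^ (-(1 : ℝ) / d) := by
      have hfl : ((n' n : ℕ) : ℝ) ≤ (1 - η / 2) * n := Nat.floor_le (by positivity)
      have e1 : ((1 - η / 2) * (n : ℝ)) ^ (-(1 : ℝ) / d) ≤ ((n' n : ℕ) : ℝ) ^ (-(1 : ℝ) / d) := by
        apply Real.rpow_le_rpow_of_nonpos hn'0 hfl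
        rw [neg_div]
        have : (0 : ℝ) < 1 / d := by positivity
        linarith
      have e2 : ((1 - η / 2) * (n : ℝ)) ^ (-(1 : ℝ) / d) = ρ⁻¹ * (n : ℝ) ^ (-(1 : ℝ) / d) := by
        rw [Real.mul_rpow hbase0.le hn0.le, hρ, ← Real.rpow_neg hbase0.le, neg_div]
      have hcd : 0 < c₂ - δ := by nlinarith [hδρ, mul_pos hρ0 (by linarith : 0 < c₂ + δ)]
      calc β n = (c₂ + δ) * (n : ℝ) ^ (-(1 : ℝ) / d) := rfl
        _ ≤ ((c₂ - δ) * ρ⁻¹) * (n : ℝ) ^ (-(1 : ℝ) / d) := by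
            gcongr
            rw [← div_eq_mul_inv, le_div_iff₀ hρ0]
            linarith
        _ = (c₂ - δ) * (ρ⁻¹ * (n : ℝ) ^ (-(1 : ℝ) / d)) := by ring
        _ ≤ _ := by
            rw [← e2]
            gcongr
    rw [prob_eq d n (by norm_num) hβn hpi]
    refine key.trans ?_
    gcongr
    rw [← prob_eq d (n' n) (by norm_num) hβn hpi]
    exact prob_mono_alpha d (n' n) 2 hle
  have hβlim : Tendsto (fun n => prob d n (β n) 3) atTop (𝓝 0) :=
    tendsto_of_tendsto_of_tendsto_of_le_of_le' tendsto_const_nhds hlim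
      (Eventually.of_forall fun _ => bot_le) hev
  intro α hα
  refine tendsto_of_tendsto_of_tendsto_of_le_of_le' tendsto_const_nhds hβlim
    (Eventually.of_forall fun _ => bot_le) ?_
  filter_upwards [eventually_ge_atTop 1] with n hn
  exact prob_mono_alpha d n 3 (hα n hn).2

end Pool.Agent.Helper97.BG
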